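import Pool.Agent.SGE.Stmts

/-!
# Squad SGE, module ADV: one can advance
-/

open scoped BigOperators

noncomputable section

namespace Pool.Agent.SGE.H60Adv

variable {V : Type}

theorem tri_tail {R : V → V → V → Prop} {e : V} : ∀ {L : List V}, Tri R (e :: L) → Tri R L
  | [], _ => trivial
  | [_], _ => trivial
  | _ :: _ :: _, h => h.2

theorem tri_forall {R : V → V → V → Prop} {x w y : V} {B : List V} :
    ∀ (A : List V), Tri R (A ++ x :: w :: y :: B) → R x w y
  | [], h => h.1
  | _ :: A, h => tri_forall A (tri_tail h)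

/-- consecutive vertices of the contour are adjacent -/
theorem con_E [Fintype V] {a b : V} {C : List V} {E : V → V → Prop} {F : V → V → V → Prop}
    (N : NT a b C E F) {P Q : List V} {p q : V} (h : C = P ++ p :: q :: Q) : E p q := by
  obtain ⟨L1, e, hL1⟩ : ∃ L1 e, b :: P = L1 ++ [e] :=
    ⟨(b :: P).dropLast, (b :: P).getLast (by simp), (List.dropLast_append_getLast _).symm⟩
  have hbd := N.bd
  have hall : b :: (C ++ [a]) = L1 ++ e :: p :: q :: (Q ++ [a]) := by
    have h1 : b :: (C ++ [a]) = (b :: P) ++ p :: q :: (Q ++ [a]) := by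
      rw [h]
      simp
    rw [h1, hL1]
    simp
  rw [hall] at hbd
  obtain ⟨l, h1, h2, h3, h4, h5, h6⟩ := tri_forall L1 hbd
  exact (h5 q).2 (List.mem_of_getLast? h2)

/-- the change of label -/
theorem change {A B : V → V → Prop} : ∀ (L : List V) (u p : V),
    (∀ P x y Q, u :: p :: L = P ++ x :: y :: Q → A x y ∨ B x y) → A u p →
    (∀ P x y, u :: p :: L = P ++ [x, y] → ¬ A x y) →
    ∃ P x y z Q, u :: p :: L = P ++ x :: y :: z :: Q ∧ A x y ∧ B y z := by
  intro L
  induction L with
  | nil =>
    intro u p _ h1 h2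
    exact absurd h1 (h2 [] u p rfl)
  | cons w L ih =>
    intro u p h h1 h2
    rcases h [u] p w L rfl with h3 | h3
    · obtain ⟨P, x, y, z, Q, k1, k2, k3⟩ := ih p w
        (fun P x y Q hh => h (u :: P) x y Q (by rw [hh]; rfl)) h3
        (fun P x y hh => h2 (u :: P) x y (by rw [hh]; rfl))
      exact ⟨u :: P, x, y, z, Q, by rw [k1]; rfl, k2, k3⟩
    · exact ⟨[], u, p, w, L, rfl, h1, h3⟩

theorem o_ne {p q r : ℝ × ℝ} (h : 0 < o p q r) : p ≠ q ∧ q ≠ r ∧ r ≠ p := by
  refine ⟨?_, ?_, ?_⟩
  · rintro rfl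
    simp [o] at h
  · rintro rfl
    simp only [o] at h
    nlinarith
  · rintro rfl
    simp [o] at h

theorem adv (hFce : FceStmt) (hPnt : PntStmt) (hAng : AngStmt) : AdvStmt := by
  intro V _ f T a b c C E F hT hO hS
  have N := hS.nt
  have hTC : ∀ P p q Q, C = P ++ p :: q :: Q → T p q := fun P p q Q h =>
    hS.sub _ _ (con_E N h)
  have hx : ∀ P p q Q, C = P ++ p :: q :: Q → (f p).1 < (f q).1 := by
    intro P p q Q h
    have h1 := hS.mono
    rw [h, List.pairwise_append] at h1
    have h2 := h1.2.1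
    rw [List.pairwise_cons] at h2
    exact h2.1 q (by simp)
  have hxm : ∀ u v, (f u).1 ≠ (f v).1 → u ≠ v := by
    rintro u v h rfl
    exact h rfl
  -- the faces
  have hface : ∀ P p q Q, C = P ++ p :: q :: Q → ¬ (p = a ∧ q = c) → ¬ (p = c ∧ q = b) →
      ∃ r, Fc f T p q r := by
    intro P p q Q h h1 h2
    exact hFce hT (hTC P p q Q h) (hPnt hT hO (hTC P p q Q h) (hx P p q Q h) h1 h2)
  by_cases hM : ∃ (P : List V) (p q : V) (Q : List V) (r : V), C = P ++ p :: q :: Q ∧
      Fc f T p q r ∧ (f p).1 < (f r).1 ∧ (f r).1 < (f q).1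
  · exact Or.inr (Or.inl hM)
  have hlab : ∀ P p q Q, C = P ++ p :: q :: Q →
      (((∃ r, Fc f T p q r ∧ (f q).1 < (f r).1) ∨ (p = a ∧ q = c)) ∨
        ((∃ r, Fc f T p q r ∧ (f r).1 < (f p).1) ∨ (p = c ∧ q = b))) := by
    intro P p q Q h
    by_cases h1 : p = a ∧ q = c
    · exact Or.inl (Or.inr h1)
    by_cases h2 : p = c ∧ q = b
    · exact Or.inr (Or.inr h2)
    obtain ⟨r, hr⟩ := hface P p q Q h h1 h2
    have hne := o_ne hr.pos
    have hrp : (f r).1 ≠ (f p).1 := hT.gp.x _ _ (by
      rintro rfl
      exact hne.2.2 rfl)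
    have hrq : (f r).1 ≠ (f q).1 := hT.gp.x _ _ (by
      rintro rfl
      exact hne.2.1 rfl)
    rcases lt_or_gt_of_ne hrp with h3 | h3
    · exact Or.inr (Or.inl ⟨r, hr, h3⟩)
    · rcases lt_or_gt_of_ne hrq with h4 | h4
      · exact absurd ⟨P, p, q, Q, r, h, hr, h3, h4⟩ hM
      · exact Or.inl (Or.inl ⟨r, hr, h4⟩)
  -- the contour has at least two elements
  obtain ⟨u0, p0, L0, hC⟩ : ∃ u0 p0 L0, C = u0 :: p0 :: L0 := by
    have h1 := N.hd
    have h2 := N.ls
    cases C with
    | nil => simp at h1
    | cons u L =>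
      cases L with
      | nil =>
        exfalso
        simp at h1 h2
        exact N.ab (h1.symm.trans h2)
      | cons p L => exact ⟨u, p, L, rfl⟩
  have hu0 : u0 = a := by
    have h1 := N.hd
    rw [hC] at h1
    simpa using h1
  have hfirst : ((∃ r, Fc f T u0 p0 r ∧ (f p0).1 < (f r).1) ∨ (u0 = a ∧ p0 = c)) := by
    rcases hlab [] u0 p0 L0 hC with h | h | h
    · exact h
    · exfalso
      obtain ⟨r, h1, h2⟩ := h
      rw [hu0] at h2
      have h3 : r ≠ a := by
        rintro rfl
        exact lt_irrefl _ h2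
      exact absurd (hO.xa r h3) (not_lt.2 h2.le)
    · exfalso
      exact hO.ac (hu0.symm.trans h.1)
  have hlast : ∀ P x y, u0 :: p0 :: L0 = P ++ [x, y] →
      ¬ ((∃ r, Fc f T x y r ∧ (f y).1 < (f r).1) ∨ (x = a ∧ y = c)) := by
    intro P x y h h1
    have hyb : y = b := by
      have h2 := N.ls
      rw [hC, h, show P ++ [x, y] = (P ++ [x]) ++ [y] by simp, List.getLast?_concat] at h2
      simpa using h2
    rcases h1 with ⟨r, h1, h2⟩ | ⟨h1, h2⟩
    · rw [hyb] at h2
      have h3 : r ≠ b := by
        rintro rfl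
        exact lt_irrefl _ h2
      exact absurd (hO.xb r h3) (not_lt.2 h2.le)
    · exact hO.bc (hyb.symm.trans h2)
  obtain ⟨P, u, p, w, Q, hk, hRR, hLL⟩ := change (A := fun p q =>
      ((∃ r, Fc f T p q r ∧ (f q).1 < (f r).1) ∨ (p = a ∧ q = c)))
    (B := fun p q => ((∃ r, Fc f T p q r ∧ (f r).1 < (f p).1) ∨ (p = c ∧ q = b))) L0 u0 p0
    (fun P x y Q hh => hlab P x y Q (hC.trans hh)) hfirst hlast
  have hk' : C = P ++ u :: p :: w :: Q := hC.trans hk
  have hup : (f u).1 < (f p).1 := hx P u p (w :: Q) hk'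
  have hpw : (f p).1 < (f w).1 := hx (P ++ [u]) p w Q (by rw [hk']; simp)
  have hTpw : T p w := hTC (P ++ [u]) p w Q (by rw [hk']; simp)
  by_cases hpc : p = c
  · -- the last state
    left
    have hua : u = a := by
      rcases hRR with ⟨r, h1, h2⟩ | h
      · exfalso
        have h3 := h1.pos
        rw [hpc] at h2 h3 hup
        have hr : r ≠ c := by
          rintro rfl
          exact lt_irrefl _ h2
        have hu : u ≠ c := by
          rintro rfl
          exact lt_irrefl _ hup
        have h4 := hO.yc r hr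
        have h5 := hO.yc u hu
        simp only [o] at h3
        nlinarith [mul_pos (sub_pos.2 hup) (sub_pos.2 h4), mul_pos (sub_pos.2 h5) (sub_pos.2 h2)]
      · exact h.1
    have hwb : w = b := by
      rcases hLL with ⟨r, h1, h2⟩ | h
      · exfalso
        have h3 := h1.pos
        rw [hpc] at h2 h3 hpw
        have hr : r ≠ c := by
          rintro rfl
          exact lt_irrefl _ h2
        have hu : w ≠ c := by
          rintro rfl
          exact lt_irrefl _ hpw
        have h4 := hO.yc r hr
        have h5 := hO.yc w hu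
        simp only [o] at h3
        nlinarith [mul_pos (sub_pos.2 hpw) (sub_pos.2 h4), mul_pos (sub_pos.2 h5) (sub_pos.2 h2)]
      · exact h.2
    have nd := N.nd
    have hP : P = [] := by
      cases P with
      | nil => rfl
      | cons d P =>
        exfalso
        have h1 := N.hd
        rw [hk'] at h1 nd
        have h2 : d = a := by simpa using h1
        rw [List.cons_append, List.nodup_cons] at nd
        apply nd.1
        rw [h2, ← hua]
        simp
    have hQ : Q = [] := by
      cases Q using List.reverseRecOn with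
      | nil => rfl
      | append_singleton Q d _ =>
        exfalso
        have h1 := N.ls
        have h3 : P ++ u :: p :: w :: (Q ++ [d]) = (P ++ u :: p :: w :: Q) ++ [d] := by simp
        rw [hk', h3] at h1 nd
        have h2 : d = b := by
          rw [List.getLast?_concat] at h1
          simpa using h1
        rw [List.nodup_append] at nd
        exact nd.2.2 w (by simp) d (by simp) (hwb.trans h2.symm)
    rw [hk', hP, hQ, hua, hpc, hwb]
    rfl
  · -- a face on three vertices
    right
    right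
    obtain ⟨r, hr1, hr2⟩ : ∃ r, Fc f T u p r ∧ (f p).1 < (f r).1 := by
      rcases hRR with h | h
      · exact h
      · exact absurd h.2 hpc
    obtain ⟨s, hs1, hs2⟩ : ∃ s, Fc f T p w s ∧ (f s).1 < (f p).1 := by
      rcases hLL with h | h
      · exact h
      · exact absurd h.1 hpc
    have hr3 : Fc f T p r u := ⟨by
      have h := hr1.pos
      simp only [o] at h ⊢
      nlinarith, hr1.qr, hr1.rp, hr1.pq, fun z hz => hr1.em z ⟨hz.2.2, hz.1, hz.2.1⟩⟩
    have hrw : r = w := by
      by_contra hne
      have hgp : o (f p) (f r) (f w) ≠ 0 := hT.gp.o p r w (hxm _ _ hr2.ne) (hxm _ _ hpw.ne) hne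
      rcases lt_or_gt_of_ne hgp with h | h
      · -- r above p w
        apply hAng hT hs1 hr1.qr
        have h1 := hs1.pos
        simp only [o] at h h1 ⊢
        constructor
        · nlinarith
        · -- o s p r > 0
          have hW : 0 < (f w).1 - (f p).1 := sub_pos.2 hpw
          have hR : 0 < (f r).1 - (f p).1 := sub_pos.2 hr2
          have hS' : 0 < (f p).1 - (f s).1 := sub_pos.2 hs2
          have key : 0 < ((f w).1 - (f p).1) * (((f p).1 - (f s).1) * ((f r).2 - (f s).2) -
              ((f p).2 - (f s).2) * ((f r).1 - (f s).1)) := by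
            nlinarith [mul_pos hS' (neg_pos.2 h), mul_pos hR h1]
          exact (pos_iff_pos_of_mul_pos key).1 hW
      · -- w above p r
        apply hAng hT hr3 hTpw
        have h1 := hr1.pos
        refine ⟨h, ?_⟩
        simp only [o] at h h1 ⊢
        have hW : 0 < (f w).1 - (f p).1 := sub_pos.2 hpw
        have hR : 0 < (f r).1 - (f p).1 := sub_pos.2 hr2
        have hU : 0 < (f p).1 - (f u).1 := sub_pos.2 hup
        have key : 0 < ((f r).1 - (f p).1) * (((f p).1 - (f u).1) * ((f w).2 - (f u).2) -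
            ((f p).2 - (f u).2) * ((f w).1 - (f u).1)) := by
          nlinarith [mul_pos hU h, mul_pos hW h1]
        exact (pos_iff_pos_of_mul_pos key).1 hR
    rw [hrw] at hr1
    exact ⟨P, u, p, w, Q, hk', hr1⟩

end Pool.Agent.SGE.H60Adv
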